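import Pool.Agent.U143.RG.Fin

/-!
# Potentially modular elliptic curves: alternating groups and `SL_2(2^k)` as composition factors

Let `E` be an elliptic curve over a number field `K` and `F/K` a finite Galois extension with group `G`.
For totally real and for CM fields `K` there is an `F` over which `E` is modular (Taylor; Allen, Calegari,
Caraiani, Gee, Helm, Le Hung, Newton, Scholze, Taylor, Thorne); by solvable descent (Langlands,
Arthur–Clozel) the L-functions `L(E/F^U ⊗ ψ, s)` are then entire for all SOLVABLE subgroups `U` of `G` and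
all linear characters `ψ` of `U`. Brauer's theorem gives the meromorphic continuation of the L-functions of
`E` over `K` and over all intermediate fields, but `G` is not solvable in general and poles are not excluded.

Here the nonabelian composition factors are alternating groups `A_m`, `m ≥ 8`, with `r ≤ m - 3` (or
`r = m - 2` and `m` not prime), or groups `SL_2(q)`, `q` even, with `r ≤ q - 2` (the smallest degree of a
nonconstant character is `m - 1`, respectively `q - 1`). The orders at a point `s₀` of the L-functions of `E`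
are controlled as follows: there is a chain `F_t ⊂ … ⊂ F_0 = F` of Galois extensions of `K`, `F/F_t`
solvable, such that `L(E/F_i, s)` has at `s₀` an order at most `r` larger than `L(E/F_{i+1}, s)`, and
`L(E/F_t, s)` has order at most `r` (for `t = 0`: the order of `L(E/F, s)` at `s₀` is at most `r`).

The proof. The orders at `s₀` form a class function on `G` with nonnegative integral multiplicities at the
linear characters of the SOLVABLE subgroups; along the chain it is a sum of functions with the same property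
of degree at most `r` (`Pool.Agent.U143.RG.chain_sum`). New is the rigidity of such functions: on `A_m` and
on `SL_2(q)` they are constant in these ranges (`alt_range`, `sl2_rigid`); if such a function is constant on
a normal subgroup then it is constant on its cosets (`const_of_kernel`), and it descends to a function with
the same property (`push_sol_const`, by Frattini's argument); averages over solvable normal subgroups have
the same property as well. The case of functions with nonnegative multiplicities on ALL subgroups (the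
method of Heilbronn, Stark, Foote, Murty and Wales for Artin L-functions) was known.
-/

set_option autoImplicit false
open NumberField
open Classical

namespace Pool.Agent.Results.MP_bf61d2_nt.AlternatingLayers

open IsDedekindDomain
open Pool.Agent.H541R3.ART (Irr)
open Pool.Agent.R389 (ind IsDecomp)

/-- `M v` is, for every `v`, an integral model of `E` with discriminant minimal at `v`. -/
def MinimalModels {K : Type} [Field K] [NumberField K] (E : WeierstrassCurve K)
    (M : HeightOneSpectrum (𝓞 K) → WeierstrassCurve (𝓞 K)) : Prop :=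
  ∀ v : HeightOneSpectrum (𝓞 K),
    (∃ C : WeierstrassCurve.VariableChange K, C • E = (M v).map (algebraMap (𝓞 K) K)) ∧
    ∀ W : WeierstrassCurve (𝓞 K),
      (∃ C : WeierstrassCurve.VariableChange K, C • E = W.map (algebraMap (𝓞 K) K)) →
        ∀ n : ℕ, (M v).Δ ∈ v.asIdeal ^ n → W.Δ ∈ v.asIdeal ^ n

/-- The Euler product of the problem, computed from the reductions of the models `M v`. -/
noncomputable def LSeries {K : Type} [Field K] [NumberField K]
    (M : HeightOneSpectrum (𝓞 K) → WeierstrassCurve (𝓞 K)) (s : ℂ) : ℂ :=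
  ∏' v : HeightOneSpectrum (𝓞 K),
    (1 - ((((Ideal.absNorm v.asIdeal : ℕ) : ℤ) -
          ((Nat.card {p : (𝓞 K ⧸ v.asIdeal) × (𝓞 K ⧸ v.asIdeal) //
            p.2 ^ 2 + Ideal.Quotient.mk v.asIdeal (M v).a₁ * p.1 * p.2
              + Ideal.Quotient.mk v.asIdeal (M v).a₃ * p.2
            = p.1 ^ 3 + Ideal.Quotient.mk v.asIdeal (M v).a₂ * p.1 ^ 2
              + Ideal.Quotient.mk v.asIdeal (M v).a₄ * p.1
              + Ideal.Quotient.mk v.asIdeal (M v).a₆} : ℕ) : ℤ) : ℤ) : ℂ)
          * ((Ideal.absNorm v.asIdeal : ℕ) : ℂ) ^ (-s)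
      + (if (M v).Δ ∈ v.asIdeal then (0 : ℂ) else 1)
          * ((Ideal.absNorm v.asIdeal : ℕ) : ℂ) ^ (1 - 2 * s))⁻¹

/-- The formal properties of the L-functions `L(E ⊗ χ, s)`, `χ` an irreducible complex character of the
Galois group `G` of `F/K`: they are analytic for `Re s > 3/2`, have a meromorphic continuation to the plane
and do not vanish identically, and for every subgroup `U` of `G` the product of the
`L(E ⊗ χ, s) ^ ⟨χ|_U, 1⟩` is, for `Re s > 3/2`, the Euler product of the problem for `E` over the fixed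
field of `U`. -/
structure TwistFamily (K : Type) [Field K] [NumberField K] (E : WeierstrassCurve K)
    (F : Type) [Field F] [NumberField F] [Algebra K F] where
  /-- the function `L(E ⊗ χ, s)` -/
  L : ((F ≃ₐ[K] F) → ℂ) → ℂ → ℂ
  analytic : ∀ χ ∈ Irr (F ≃ₐ[K] F), ∀ s : ℂ, (3 / 2 : ℝ) < s.re → AnalyticAt ℂ (L χ) s
  mero : ∀ χ ∈ Irr (F ≃ₐ[K] F), ∀ s : ℂ, MeromorphicAt (L χ) s ∧ meromorphicOrderAt (L χ) s ≠ ⊤
  euler : ∀ (U : Subgroup (F ≃ₐ[K] F)) (m : ((F ≃ₐ[K] F) → ℂ) → ℕ),
    IsDecomp (ind U (fun _ => 1)) m →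
    ∀ M : HeightOneSpectrum (𝓞 (IntermediateField.fixedField U)) →
        WeierstrassCurve (𝓞 (IntermediateField.fixedField U)),
      MinimalModels (E.map (algebraMap K (IntermediateField.fixedField U))) M →
        ∀ s : ℂ, (3 / 2 : ℝ) < s.re → ∏ᶠ χ ∈ Irr (F ≃ₐ[K] F), L χ s ^ m χ = LSeries M s

/-- The order at `s` of the L-function of the twist of `E` by the character which contains `χ` with the
multiplicity `m χ`, the product of the `L(E ⊗ χ, s) ^ m χ`. For the multiplicities of the character
induced from a linear character `ψ` of a subgroup `U` this is the order at `s` of `L(E/F^U ⊗ ψ, s)`. -/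
noncomputable def TwistFamily.order {K : Type} [Field K] [NumberField K] {E : WeierstrassCurve K}
    {F : Type} [Field F] [NumberField F] [Algebra K F] (T : TwistFamily K E F)
    (m : ((F ≃ₐ[K] F) → ℂ) → ℕ) (s : ℂ) : WithTop ℤ :=
  meromorphicOrderAt (fun z => ∏ᶠ χ ∈ Irr (F ≃ₐ[K] F), T.L χ z ^ m χ) s

/-- The order at `s₀` of the L-function of `E` over the fixed field of `C (i + 1)` is smaller by at most `r`
than the one for `C i`, where `⊥ = C 0 ≤ C 1 ≤ … ≤ C t` is a chain of solvable normal subgroups of `G`, and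
it is at most `r` for `C t`. For `t = 0`: the order at `s₀` of the L-function of `E` over `F` is at most
`r`. -/
def TwistFamily.GrowsBy {K : Type} [Field K] [NumberField K] {E : WeierstrassCurve K}
    {F : Type} [Field F] [NumberField F] [Algebra K F] (T : TwistFamily K E F)
    (r : ℕ) (s₀ : ℂ) : Prop :=
  ∃ (t : ℕ) (C : ℕ → Subgroup (F ≃ₐ[K] F)), Monotone C ∧ (∀ i, (C i).Normal) ∧ C 0 = ⊥ ∧
    Group.IsSolvable (C t) ∧
    (∀ i < t, ∀ m m' : ((F ≃ₐ[K] F) → ℂ) → ℕ, IsDecomp (ind (C i) (fun _ => 1)) m →
      IsDecomp (ind (C (i + 1)) (fun _ => 1)) m' →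
        T.order m s₀ ≤ T.order m' s₀ + (r : WithTop ℤ)) ∧
    (∀ m : ((F ≃ₐ[K] F) → ℂ) → ℕ, IsDecomp (ind (C t) (fun _ => 1)) m →
      T.order m s₀ ≤ (r : WithTop ℤ))

/-- `S` is isomorphic to an alternating group of degree `m ≥ 8` with `r ≤ m - 3`, or `r ≤ m - 2` and `m`
not prime, or to `SL_2(k)` for a finite field `k` of characteristic two with at least `r + 2` elements. -/
def Factor (r : ℕ) (S : Type) [Group S] : Prop :=
  (∃ m : ℕ, 8 ≤ m ∧ (r + 3 ≤ m ∨ (r + 2 ≤ m ∧ ¬ m.Prime)) ∧
    Nonempty (S ≃* alternatingGroup (Fin m))) ∨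
  (∃ (k : Type) (_ : Field k) (_ : Finite k) (_ : CharP k 2), r + 2 ≤ Nat.card k ∧
    Nonempty (S ≃* Matrix.SpecialLinearGroup (Fin 2) k))

/-- `N` is isomorphic to a direct product of finitely many groups with the property `Factor r` (the trivial
group is the empty product). -/
def IsProduct (r : ℕ) (N : Type) [Group N] : Prop :=
  ∃ (l : ℕ) (S : Fin l → Type) (_ : ∀ j, Group (S j)),
    (∀ j, Factor r (S j)) ∧ Nonempty (N ≃* ∀ j, S j)

/-- The nonabelian composition factors of the (finite) group `X` have the property `Factor r`: the group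
is trivial, or it has a normal subgroup `N` which is abelian or a direct product of groups with the property
`Factor r`, and `X / N` has the property `HasFactors r`. -/
inductive HasFactors (r : ℕ) : ∀ (X : Type) [Group X], Prop
  | triv (X : Type) [Group X] (h : ∀ x : X, x = 1) : HasFactors r X
  | abel (X : Type) [Group X] (N : Subgroup X) [N.Normal] (h : ∀ a ∈ N, ∀ b ∈ N, a * b = b * a)
      (hq : HasFactors r (X ⧸ N)) : HasFactors r X
  | prod (X : Type) [Group X] (N : Subgroup X) [N.Normal] (h : IsProduct r N)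
      (hq : HasFactors r (X ⧸ N)) : HasFactors r X

end Pool.Agent.Results.MP_bf61d2_nt.AlternatingLayers

open IsDedekindDomain
open Pool.Agent.H541R3.ART (Irr)
open Pool.Agent.R389 (ind IsDecomp)
open Pool.Agent.Results.MP_bf61d2_nt.AlternatingLayers

theorem Pool.Agent.Results.MP_bf61d2_nt.AlternatingLayers.Factor.finite {r : ℕ} {S : Type} [Group S]
    (h : Factor r S) : Finite S := by
  rcases h with ⟨m, -, -, ⟨e⟩⟩ | ⟨k, _, _, _, -, ⟨e⟩⟩
  · exact Finite.of_equiv _ e.symm.toEquiv
  · exact Finite.of_equiv _ e.symm.toEquiv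

theorem Pool.Agent.Results.MP_bf61d2_nt.AlternatingLayers.Factor.rigid {r : ℕ} {S : Type} [Group S]
    (h : Factor r S) : Pool.Agent.U143.RG.SRigid r S := by
  have hf := h.finite
  rcases h with ⟨m, hm, hr, ⟨e⟩⟩ | ⟨k, _, _, _, hr, ⟨e⟩⟩
  · exact (Pool.Agent.U143.RG.alt_range hm hr).of_surj e.symm.toMonoidHom e.symm.surjective
  · exact (Pool.Agent.U143.RG.sl2_rigid hr).of_surj e.symm.toMonoidHom e.symm.surjective

theorem Pool.Agent.Results.MP_bf61d2_nt.AlternatingLayers.HasFactors.good {r : ℕ} {X : Type} [Group X]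
    (h : HasFactors r X) : ∀ [Finite X], Pool.Agent.U143.RG.GoodD r X := by
  induction h with
  | triv X h => intro _; exact Pool.Agent.U143.RG.GoodD.triv h
  | abel X N h hq ih =>
    intro _
    have hs : Group.IsSolvable N := Pool.Agent.H302R3.sol_of_comm fun a b =>
      Subtype.ext (h a a.2 b b.2)
    refine Pool.Agent.U143.RG.GoodD.of_sol_ker (π := QuotientGroup.mk' N)
      (QuotientGroup.mk'_surjective N) ?_ ih
    rw [QuotientGroup.ker_mk']
    exact hs
  | prod X N h hq ih =>
    intro _
    obtain ⟨l, S, _, hS, ⟨e⟩⟩ := h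
    have hfin : ∀ j, Finite (S j) := fun j => (hS j).finite
    refine Pool.Agent.U143.RG.GoodD.of_const_ker (π := QuotientGroup.mk' N)
      (QuotientGroup.mk'_surjective N) (fun θ hθ r' hr' h1 n hn => ?_) ih
    rw [QuotientGroup.ker_mk'] at hn
    have h2 := Pool.Agent.U143.RG.ker_prod hθ hr' h1 (fun j => (hS j).rigid)
      (N.subtype.comp e.symm.toMonoidHom) (e ⟨n, hn⟩)
    simpa using h2

/-- **Composition factors `A_m` and `SL_2(2^k)`.** Let `F/K` be a finite Galois extension of number fields
with group `G`, `E` an elliptic curve over `K`, `T` a family of functions with the formal properties of the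
L-functions `L(E ⊗ χ, s)`, `s₀` a complex number, and suppose that `L(E/F^U ⊗ ψ, s)` has no pole at `s₀` for
all SOLVABLE subgroups `U` of `G` and all linear characters `ψ` of `U`, and that the order of the L-function
of `E` at `s₀` grows by at most `r` along a chain of fields as in `TwistFamily.GrowsBy` (for example: the
order of `L(E/F, s)` at `s₀` is at most `r`). Let `N` be a normal subgroup of `G` which is a direct product
of groups `A_m`, `SL_2(2^k)` in the range of `r` (`N = 1` is allowed).
* `L(E ⊗ χ, s)` has neither a zero nor a pole at `s₀` for every irreducible character `χ` of `G` which is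
  not trivial on `N`.
* Let `U` be a subgroup of `G` such that all nonabelian composition factors of `UN` are groups `A_m`,
  `SL_2(2^k)` in the range of `r`, and `ψ` a linear character of `U`. Then `L(E/F^U ⊗ ψ, s)` has no pole at
  `s₀`, and its order at `s₀` is at most the order of `L(E/F^V ⊗ ψ, s)` for every solvable subgroup `V` of
  `U`. -/
theorem Pool.Agent.Results.MP_bf61d2_nt.AlternatingLayers.result
    (K : Type) [Field K] [NumberField K] (E : WeierstrassCurve K) (_hE : E.IsElliptic)
    (F : Type) [Field F] [NumberField F] [Algebra K F] [IsGalois K F] (T : TwistFamily K E F)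
    (s₀ : ℂ)
    (hsol : ∀ U : Subgroup (F ≃ₐ[K] F), Group.IsSolvable U → ∀ (ψ : U →* ℂˣ)
      (m : ((F ≃ₐ[K] F) → ℂ) → ℕ), IsDecomp (ind U (fun x => ((ψ x : ℂˣ) : ℂ))) m →
        0 ≤ T.order m s₀)
    (r : ℕ) (hr : T.GrowsBy r s₀)
    (N : Subgroup (F ≃ₐ[K] F)) (hN : N.Normal) (hNp : IsProduct r N) :
    (∀ χ ∈ Irr (F ≃ₐ[K] F), (∃ n ∈ N, χ n ≠ χ 1) → meromorphicOrderAt (T.L χ) s₀ = 0) ∧
    (∀ U : Subgroup (F ≃ₐ[K] F), HasFactors r (U ⊔ N : Subgroup (F ≃ₐ[K] F)) →
      ∀ (ψ : U →* ℂˣ) (m : ((F ≃ₐ[K] F) → ℂ) → ℕ),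
        IsDecomp (ind U (fun x => ((ψ x : ℂˣ) : ℂ))) m →
          0 ≤ T.order m s₀ ∧
          ∀ (V : Subgroup (F ≃ₐ[K] F)) (h : V ≤ U), Group.IsSolvable V →
            ∀ m' : ((F ≃ₐ[K] F) → ℂ) → ℕ,
              IsDecomp (ind V (fun x => ((ψ (Subgroup.inclusion h x) : ℂˣ) : ℂ))) m' →
                T.order m s₀ ≤ T.order m' s₀) := by
  have hG : Finite (F ≃ₐ[K] F) := inferInstance
  have hL : ∀ χ ∈ Irr (F ≃ₐ[K] F),
      MeromorphicAt (T.L χ) s₀ ∧ meromorphicOrderAt (T.L χ) s₀ ≠ ⊤ := fun χ hχ => T.mero χ hχ s₀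
  obtain ⟨t, C, hC, hn, h0, hs, hg, hl⟩ := hr
  obtain ⟨l, S, _, hS, ⟨e⟩⟩ := hNp
  have hfin : ∀ j, Finite (S j) := fun j => (hS j).finite
  have hc : ∀ η : (F ≃ₐ[K] F) → ℂ, Pool.Agent.H302R3.IsSolHeilbronn η → ∀ s : ℕ, s ≤ r →
      η 1 = s → ∀ n ∈ N, ∀ x, η (n * x) = η x := fun η hη s hsr h1 =>
    Pool.Agent.U143.RG.const_of_prod hη hsr h1 N (fun j => (hS j).rigid)
      (N.subtype.comp e.symm.toMonoidHom) fun n hn => ⟨e ⟨n, hn⟩, by simp⟩
  refine ⟨fun χ hχ => ?_, fun U hU ψ m hm => ?_⟩
  · rintro ⟨n, hn', hχn⟩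
    refine Pool.Agent.U143.RG.order_zero hL N ?_ hχ hn' hχn
    refine Pool.Agent.U143.RG.ords_prop hL hsol r t C hC hn h0 hs hg hl
      (fun θ => ∀ n ∈ N, ∀ x, θ (n * x) = θ x) (fun a b ha hb n hn x => ?_) hc
    simp only [ha n hn x, hb n hn x]
  · refine Pool.Agent.U143.RG.order_of_pos hL (ψ := ψ) ?_ hm
    refine Pool.Agent.U143.RG.ords_prop hL hsol r t C hC hn h0 hs hg hl
      (Pool.Agent.U143.RG.Pos U ψ) (fun a b ha hb => ha.add hb) (fun η hη s hsr h1 => ?_)
    exact Pool.Agent.U143.RG.pos_of_const hη hsr h1 N (hc η hη s hsr h1) U hU.good ψ
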