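import Pool.Agent.U309.LV.T3

/-!
# Large and small values of `L(E/K, s)` on the edge of absolute convergence are doubly exponentially rare

`E` is an elliptic curve over a number field `K`. The Euler product of `L(E/K, s)` converges absolutely
for `Re s > 3/2` only; its continuation is not known for a general `K`, and on the line `Re s = 3/2` there
might be zeros or poles.

**Theorem.** For every `δ > 0` there is a `V₀`, depending on `δ` and on a bound for `d = [K : ℚ]` only,
such that for all `V ≥ V₀` and all intervals `[a, a + H]` with `log H ≥ e^V`, at any height `a`, the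
boundary value `ℓ(t)` of `L(E/K, s)` at `3/2 + it` exists and satisfies

  `(e^γ V)^{-2d} ≤ |ℓ(t)| ≤ (e^γ V)^{2d}`

for all `t` in `[a, a + H]` outside a set of measure at most `H exp (-e^{(1 - δ) V})`. The same holds for
the twists of `E` by the characters `χ` modulo `q`: the sum over `χ` of the measures of the exceptional
sets is at most `q H exp (-e^{(1 - δ) V})` as soon as `log (qH) ≥ e^V`, for example for `H = 1`.

So the distribution function of `|L(E/K, 3/2 + it)|` in every window has tails which decrease doubly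
exponentially in `|L|^{1/2d}`, uniformly in the window, in `E` and in `K` (of bounded degree); in
particular a zero or a pole on the line can only be felt on very small sets. The exponent `1 - δ` and the
constant `e^γ` are those of the values of a random Euler product of degree `2d` (as for `ζ(1 + it)^{2d}`).

The Euler factors above `2` and `3` are omitted; all the others are the exact ones, at all primes of
good and bad reduction.
-/

set_option autoImplicit false

namespace Pool.Agent.Results.MP_bf61d2_nt.DoublyExponentialTails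

open NumberField IsDedekindDomain MeasureTheory Filter Topology

section
variable {K : Type} [Field K] [NumberField K]

/-- `a_v = Nv - (number of the affine points of the reduction of W_v)`; for a model `W_v` of `E` minimal
at `v` this is the coefficient of `L(E/K, s)`, also for bad reduction. -/
noncomputable def trace (W : HeightOneSpectrum (𝓞 K) → WeierstrassCurve (𝓞 K))
    (v : HeightOneSpectrum (𝓞 K)) : ℝ :=
  (Ideal.absNorm v.asIdeal : ℝ) -
    (Nat.card {p : (𝓞 K ⧸ v.asIdeal) × (𝓞 K ⧸ v.asIdeal) //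
      ((W v).map (Ideal.Quotient.mk v.asIdeal)).toAffine.Equation p.1 p.2} : ℕ)

open Classical in
/-- The Euler factor of `L(E ⊗ χ, s)` at `v`: `(1 - a_v x + Nv x²)⁻¹`, and `(1 - a_v x)⁻¹` if the
reduction is bad, with `x = χ(Nv) Nv^{-s}`. -/
noncomputable def localFactor {q : ℕ} (χ : DirichletCharacter ℂ q)
    (W : HeightOneSpectrum (𝓞 K) → WeierstrassCurve (𝓞 K)) (v : HeightOneSpectrum (𝓞 K)) (s : ℂ) : ℂ :=
  (1 - (trace W v : ℂ) * (χ ((Ideal.absNorm v.asIdeal : ℕ) : ZMod q) *
      (Ideal.absNorm v.asIdeal : ℂ) ^ (-s)) +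
    (if (W v).Δ ∈ v.asIdeal then 0 else (Ideal.absNorm v.asIdeal : ℂ)) *
      (χ ((Ideal.absNorm v.asIdeal : ℕ) : ZMod q) * (Ideal.absNorm v.asIdeal : ℂ) ^ (-s)) ^ 2)⁻¹

open Classical in
/-- `L(E ⊗ χ, s)` as an Euler product over the primes `v` of `K`; the factors at the primes of `S` are
omitted. -/
noncomputable def LSeries {q : ℕ} (S : Set (HeightOneSpectrum (𝓞 K))) (χ : DirichletCharacter ℂ q)
    (W : HeightOneSpectrum (𝓞 K) → WeierstrassCurve (𝓞 K)) (s : ℂ) : ℂ :=
  ∏' v : HeightOneSpectrum (𝓞 K), if v ∈ S then 1 else localFactor χ W v s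

/-- The point `3/2 + it` of the edge. -/
noncomputable def edge (t : ℝ) : ℂ := 3 / 2 + t * Complex.I

/-- The angle `|s - (3/2 + it)| ≤ C (Re s - 3/2)` in the half-plane `Re s > 3/2`. -/
def angle (t C : ℝ) : Set ℂ := {s : ℂ | 3 / 2 < s.re ∧ ‖s - edge t‖ ≤ C * (s.re - 3 / 2)}

end

/-- **Doubly exponential tails.** For `n₀` and `0 < δ < 1` there is a `V₀ ≥ 1` with the following
property. Let `K` be a number field of degree `d ≤ n₀`, `W_v`, for each prime `v` of `K`, a Weierstrass
equation over `O_K` (for `L(E/K, s)`, an equation of `E` minimal at `v`), `S` a set of primes of `K` which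
contains those above `6`, `q ≥ 1`, `a` real, `H ≥ 1`, `V ≥ V₀` and `log (qH) ≥ e^V`. There are sets `E_χ`,
`χ` modulo `q`, the measures of which have the sum at most `qH exp (-e^{(1 - δ) V})`, such that for all `χ`
and all `t ∈ [a, a + H]` outside `E_χ` there is `ℓ` with: `L_S(E ⊗ χ, s)` tends to `ℓ` as `s` tends to
`3/2 + it` in any angle, and `(e^γ V)^{-2d} ≤ |ℓ| ≤ (e^γ V)^{2d}`. -/
theorem result (n₀ : ℕ) (δ : ℝ) (hδ : 0 < δ) (hδ1 : δ < 1) : ∃ V₀ : ℝ, 1 ≤ V₀ ∧
    ∀ (K : Type) [Field K] [NumberField K] (_ : Module.finrank ℚ K ≤ n₀)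
      (W : HeightOneSpectrum (𝓞 K) → WeierstrassCurve (𝓞 K)) (S : Set (HeightOneSpectrum (𝓞 K)))
      (_ : ∀ v : HeightOneSpectrum (𝓞 K), (6 : 𝓞 K) ∈ v.asIdeal → v ∈ S)
      (q : ℕ) [NeZero q] (a H V : ℝ), 1 ≤ H → V₀ ≤ V → Real.exp V ≤ Real.log (q * H) →
      ∃ E : DirichletCharacter ℂ q → Set ℝ,
        ∑ χ, volume (E χ) ≤ ENNReal.ofReal ((q * H) * Real.exp (-Real.exp ((1 - δ) * V))) ∧
        ∀ χ, ∀ t ∈ Set.Icc a (a + H), t ∉ E χ → ∃ ℓ : ℂ,
          (∀ C : ℝ, Tendsto (LSeries S χ W) (𝓝[angle t C] (edge t)) (𝓝 ℓ)) ∧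
          ((Real.exp Real.eulerMascheroniConstant * V) ^ (2 * Module.finrank ℚ K))⁻¹ ≤ ‖ℓ‖ ∧
          ‖ℓ‖ ≤ (Real.exp Real.eulerMascheroniConstant * V) ^ (2 * Module.finrank ℚ K) := by
  obtain ⟨V₀, hV₀, H1⟩ := Pool.Agent.U309.LV.ellTails n₀ hδ hδ1
  refine ⟨V₀, hV₀, ?_⟩
  intro K _ _ hK W S hS q _ a H V hH hV hVL
  obtain ⟨E, hE, H2⟩ := H1 K hK W S hS q a H V hH hV hVL
  refine ⟨E, hE, fun χ t ht htE => ?_⟩
  obtain ⟨ℓ, h1, h2, h3⟩ := H2 χ t ht htE
  refine ⟨ℓ, fun C => ?_, h2, h3⟩
  have e1 : edge t = Pool.Agent.TH958.BV.edgePoint 1 t := by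
    unfold edge Pool.Agent.TH958.BV.edgePoint
    push_cast
    ring
  have e2 : angle t C = Pool.Agent.TH958.BV.angle 1 t C := by
    unfold angle Pool.Agent.TH958.BV.angle
    rw [e1]
    push_cast
    norm_num
  have e3 : LSeries S χ W = Pool.Agent.U309.LV.ellL S χ W := by
    funext s
    unfold LSeries Pool.Agent.U309.LV.ellL
    refine tprod_congr fun v => ?_
    by_cases hv : v ∈ S
    · rw [if_pos hv, if_pos hv]
    · rw [if_neg hv, if_neg hv]
      have e4 : trace W v = Pool.Agent.TH339.MP.av W v := by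
        unfold trace Pool.Agent.TH339.MP.av Pool.Agent.TH339.MP.affc
        congr 2
        refine Nat.card_congr (Equiv.subtypeEquivRight fun p => ?_)
        rw [WeierstrassCurve.Affine.equation_iff]
      unfold localFactor Pool.Agent.U309.LV.efac
      rw [e4]
      rfl
  rw [e2, e1, e3]
  exact h1 C

end Pool.Agent.Results.MP_bf61d2_nt.DoublyExponentialTails
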