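import Pool.Agent.U93.T.Fin

/-!
# Modular elliptic curves over extensions with alternating or symmetric groups: the L-functions over
# the intermediate fields at zeros of quadratic order

Let `E` be an elliptic curve over a number field `K` and `F/K` a finite Galois extension with group
`G`. If `E` is modular over `F` (for totally real and for CM fields `K` there are such `F`: Taylor;
Allen, Calegari, Caraiani, Gee, Helm, Le Hung, Newton, Scholze, Taylor, Thorne), then by solvable
descent (Langlands, Arthur–Clozel) the L-functions `L(E/F^U ⊗ ψ, s)` are entire for all SOLVABLE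
subgroups `U` of `G` and all linear characters `ψ` of `U`. Brauer's theorem gives the meromorphic
continuation of the L-functions of `E` over all intermediate fields, but for nonsolvable subgroups
poles are not excluded.

Here `G` is isomorphic to `A_n` or `S_n`: `ι` is an injective homomorphism from `G` to `S_n` whose
image contains `A_n`.

`Pool.Agent.U93.Q.Exc n l`: the number `l` is a prime with `n < 2 l + 4` or a power of two with
`n < l + 4`.

`Pool.Agent.U93.Q.fx g` is the number of the fixed points and `Pool.Agent.U93.Q.sn g` the sign of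
the permutation `g`.

`Pool.Agent.U93.T.VanI n ι M χ`: for each cycle `C` of exceptional length the sum of `χ (h)` over the
`h ∈ M` for which `C` is one of the cycles of `ι h` is zero, and also the sum of `sign(ι h) χ(h)`.
This condition is void if no element of `M` has a cycle of exceptional length.

The proof. Let `Θ` be the class function on `G` with the orders of the L-functions at `s₀` as
multiplicities; its value at `1` is the order `r` of `L(E/F, s)`, and its multiplicities at the linear
characters of the SOLVABLE subgroups are nonnegative integers.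
* Let `q = 2 ^ a ≥ 4` and `m = ⌊n / q⌋`. If a linear character of an abelian subgroup occurs in `Θ`
  which is nontrivial on two disjoint even permutations, then these may be replaced by involutions
  which move `q` points, and these by translations of two of `m` blocks which are lines over the
  field with `q` elements; so a character of weight at least two of `F_q ^ m` occurs in `Θ`, and all
  its conjugates, which gives `r ≥ C(m, 2) (q - 1) ^ 2` (`Pool.Agent.U93.S`). Otherwise all mixed
  differences of order two of `Θ` vanish (`Pool.Agent.U93.L`): the contribution of a cycle to `Θ`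
  depends only on its length and on the signs of the two parts of the permutation.
* Cycles of length `q m`, `q` a prime, may be replaced by `q` cycles of length `m` (an argument of
  Stark and Foote on the translations of the fibres of `ℤ/m × ℤ/q`), for `q = 2` on the average with
  transpositions. It follows that `Θ(g) = a + b ε(g) + (c + d ε(g)) fix(g) + ∑_C δ(|C|, ε(g) ε(C))`,
  where `C` runs through the cycles of `g` of exceptional length, `ε` is the sign, `fix` the number
  of fixed points and `c, d` are nonnegative integers. All groups used are solvable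
  (`Pool.Agent.U93.T.Rel`, `Pool.Agent.U93.T.Alt`, `Pool.Agent.U93.T.Pt`).
* So `Θ|_M` has nonnegative multiplicities at the irreducible characters of `M` other than `1` and
  `ε`. These two need a lower bound for `a` and `b` (for all subgroups, as in the case of Artin
  L-functions, the positivity at linear characters is known, here only for the solvable ones). If `n`
  is neither a prime nor twice a prime there is a SOLVABLE transitive group `W ≤ S_n` without
  elements with a cycle of exceptional length and with odd elements in the point stabilizers: affine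
  maps in the fibres of `B × ℤ/u`, `u` a prime, and translations of the abelian group `B`
  (`Pool.Agent.U93.T.Wr`, `Pool.Agent.U93.T.Ex`). Its multiplicities give `a + c ≥ 0` and
  `b + d ≥ 0` (for `A_n`: `a + b + c + d ≥ 0`), and the claim for all `M` follows
  (`Pool.Agent.U93.T.Pair`). If `n` is a prime or twice a prime, then all groups `M` without
  exceptional cycles have at least two orbits, and there is such a group `W` with two orbits, of
  lengths `k ≤ 3` and `n - k` (`Pool.Agent.U93.T.Two`).
-/

set_option autoImplicit false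
open NumberField
open Classical

namespace Pool.Agent.Results.MP_bf61d2_nt.IntermediateFields

open IsDedekindDomain
open Pool.Agent.H541R3.ART (Irr)
open Pool.Agent.R389 (ind IsDecomp)

/-- `M v` is, for every `v`, an integral model of `E` with discriminant minimal at `v`. -/
def MinimalModels {K : Type} [Field K] [NumberField K] (E : WeierstrassCurve K)
    (M : HeightOneSpectrum (𝓞 K) → WeierstrassCurve (𝓞 K)) : Prop :=
  ∀ v : HeightOneSpectrum (𝓞 K),
    (∃ C : WeierstrassCurve.VariableChange K, C • E = (M v).map (algebraMap (𝓞 K) K)) ∧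
    ∀ W : WeierstrassCurve (𝓞 K),
      (∃ C : WeierstrassCurve.VariableChange K, C • E = W.map (algebraMap (𝓞 K) K)) →
        ∀ n : ℕ, (M v).Δ ∈ v.asIdeal ^ n → W.Δ ∈ v.asIdeal ^ n

/-- The Euler product of the problem, computed from the reductions of the models `M v`. -/
noncomputable def LSeries {K : Type} [Field K] [NumberField K]
    (M : HeightOneSpectrum (𝓞 K) → WeierstrassCurve (𝓞 K)) (s : ℂ) : ℂ :=
  ∏' v : HeightOneSpectrum (𝓞 K),
    (1 - ((((Ideal.absNorm v.asIdeal : ℕ) : ℤ) -
          ((Nat.card {p : (𝓞 K ⧸ v.asIdeal) × (𝓞 K ⧸ v.asIdeal) //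
            p.2 ^ 2 + Ideal.Quotient.mk v.asIdeal (M v).a₁ * p.1 * p.2
              + Ideal.Quotient.mk v.asIdeal (M v).a₃ * p.2
            = p.1 ^ 3 + Ideal.Quotient.mk v.asIdeal (M v).a₂ * p.1 ^ 2
              + Ideal.Quotient.mk v.asIdeal (M v).a₄ * p.1
              + Ideal.Quotient.mk v.asIdeal (M v).a₆} : ℕ) : ℤ) : ℤ) : ℂ)
          * ((Ideal.absNorm v.asIdeal : ℕ) : ℂ) ^ (-s)
      + (if (M v).Δ ∈ v.asIdeal then (0 : ℂ) else 1)
          * ((Ideal.absNorm v.asIdeal : ℕ) : ℂ) ^ (1 - 2 * s))⁻¹

/-- The formal properties of the L-functions `L(E ⊗ χ, s)`, `χ` an irreducible complex character of the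
Galois group `G` of `F/K`: they are analytic for `Re s > 3/2`, have a meromorphic continuation to the plane
and do not vanish identically, and for every subgroup `U` of `G` the product of the
`L(E ⊗ χ, s) ^ ⟨χ|_U, 1⟩` is, for `Re s > 3/2`, the Euler product of the problem for `E` over the fixed
field of `U`. -/
structure TwistFamily (K : Type) [Field K] [NumberField K] (E : WeierstrassCurve K)
    (F : Type) [Field F] [NumberField F] [Algebra K F] where
  /-- the function `L(E ⊗ χ, s)` -/
  L : ((F ≃ₐ[K] F) → ℂ) → ℂ → ℂ
  analytic : ∀ χ ∈ Irr (F ≃ₐ[K] F), ∀ s : ℂ, (3 / 2 : ℝ) < s.re → AnalyticAt ℂ (L χ) s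
  mero : ∀ χ ∈ Irr (F ≃ₐ[K] F), ∀ s : ℂ, MeromorphicAt (L χ) s ∧ meromorphicOrderAt (L χ) s ≠ ⊤
  euler : ∀ (U : Subgroup (F ≃ₐ[K] F)) (m : ((F ≃ₐ[K] F) → ℂ) → ℕ),
    IsDecomp (ind U (fun _ => 1)) m →
    ∀ M : HeightOneSpectrum (𝓞 (IntermediateField.fixedField U)) →
        WeierstrassCurve (𝓞 (IntermediateField.fixedField U)),
      MinimalModels (E.map (algebraMap K (IntermediateField.fixedField U))) M →
        ∀ s : ℂ, (3 / 2 : ℝ) < s.re → ∏ᶠ χ ∈ Irr (F ≃ₐ[K] F), L χ s ^ m χ = LSeries M s

/-- The order at `s` of the L-function of the twist of `E` by the character which contains `χ` with the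
multiplicity `m χ`, the product of the `L(E ⊗ χ, s) ^ m χ`. For the multiplicities of the character
induced from a linear character `ψ` of a subgroup `U` this is the order at `s` of `L(E/F^U ⊗ ψ, s)`. -/
noncomputable def TwistFamily.order {K : Type} [Field K] [NumberField K] {E : WeierstrassCurve K}
    {F : Type} [Field F] [NumberField F] [Algebra K F] (T : TwistFamily K E F)
    (m : ((F ≃ₐ[K] F) → ℂ) → ℕ) (s : ℂ) : WithTop ℤ :=
  meromorphicOrderAt (fun z => ∏ᶠ χ ∈ Irr (F ≃ₐ[K] F), T.L χ z ^ m χ) s

end Pool.Agent.Results.MP_bf61d2_nt.IntermediateFields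

open IsDedekindDomain
open Pool.Agent.H541R3.ART (Irr)
open Pool.Agent.R389 (ind IsDecomp)
open Pool.Agent.U93.Q (Exc fx sn)
open Pool.Agent.U93.T (VanI)
open Pool.Agent.Results.MP_bf61d2_nt.IntermediateFields

/-- Let `F/K` be a finite Galois extension of number fields whose group `G` is isomorphic to `A_n` or
`S_n`, `n ≥ 12`, `E` an elliptic curve over `K`, `T` a family of
functions with the formal properties of the L-functions `L(E ⊗ χ, s)`, and `s₀` a complex number.
Suppose that `L(E/F^U ⊗ ψ, s)` has no pole at `s₀` for all SOLVABLE subgroups `U` of `G` and all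
linear characters `ψ` of `U` (true if `E` is modular over `F`), and that the order of `L(E/F, s)` at
`s₀` is at most `r`, where `r < C(⌊n / q⌋, 2) (q - 1) ^ 2` for some `q = 2 ^ a ≥ 4` (for `q` about
`√n` this is `(1 - o(1)) n ^ 2 / 2`).

(1) Let `M` be a subgroup of `G` none of whose elements has a cycle of prime length
`l > (n - 4) / 2` or of length `2 ^ j > n - 4`. Then `L(E/F^M, s)` has no pole at `s₀`.

(2) Let `M` be any subgroup of `G` and let `χ` be an irreducible character of `M` whose sums over the
elements of `M` with a given cycle of exceptional length vanish, also with signs (for example any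
irreducible character of a group `M` as in (1)). Then the L-function `L(E/F^M ⊗ χ, s)` has no pole at
`s₀`, and it is not zero at `s₀` unless `χ` is the trivial character or the sign or occurs in the
permutation character of `M` or in its product with the sign. -/
theorem Pool.Agent.Results.MP_bf61d2_nt.IntermediateFields.result
    (K : Type) [Field K] [NumberField K] (E : WeierstrassCurve K) (_hE : E.IsElliptic)
    (F : Type) [Field F] [NumberField F] [Algebra K F] [IsGalois K F] (T : TwistFamily K E F)
    (s₀ : ℂ)
    (hsol : ∀ U : Subgroup (F ≃ₐ[K] F), Group.IsSolvable U → ∀ (ψ : U →* ℂˣ)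
      (m : ((F ≃ₐ[K] F) → ℂ) → ℕ), IsDecomp (ind U (fun x => ((ψ x : ℂˣ) : ℂ))) m →
        0 ≤ T.order m s₀)
    (r : ℕ) (hr : ∀ m : ((F ≃ₐ[K] F) → ℂ) → ℕ,
      IsDecomp (ind (⊥ : Subgroup (F ≃ₐ[K] F)) (fun _ => 1)) m → T.order m s₀ ≤ (r : WithTop ℤ))
    (n : ℕ) (ι : (F ≃ₐ[K] F) →* Equiv.Perm (Fin n)) (hι : Function.Injective ι)
    (hA : alternatingGroup (Fin n) ≤ ι.range) (hn : 12 ≤ n)
    (a : ℕ) (ha : 2 ≤ a) (hrn : r < (n / 2 ^ a).choose 2 * (2 ^ a - 1) ^ 2) :
    (∀ M : Subgroup (F ≃ₐ[K] F), (∀ h ∈ M, ∀ l ∈ (ι h).cycleType, ¬ Exc n l) →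
      ∀ m : ((F ≃ₐ[K] F) → ℂ) → ℕ, IsDecomp (ind M (fun _ => 1)) m → 0 ≤ T.order m s₀) ∧
    (∀ (M : Subgroup (F ≃ₐ[K] F)) (χ : M → ℂ), χ ∈ Irr M → VanI n ι M χ →
      ∀ m : ((F ≃ₐ[K] F) → ℂ) → ℕ, IsDecomp (ind M χ) m →
        0 ≤ T.order m s₀ ∧
        ((χ ≠ fun _ => 1) → (χ ≠ fun h : M => sn (ι h)) →
          ∑ᶠ h : M, (fx (ι h) : ℂ) * χ h = 0 →
          ∑ᶠ h : M, sn (ι h) * (fx (ι h) : ℂ) * χ h = 0 → T.order m s₀ = 0)) := by
  have hG : Finite (F ≃ₐ[K] F) := inferInstance
  have hL : ∀ χ ∈ Irr (F ≃ₐ[K] F),
      MeromorphicAt (T.L χ) s₀ ∧ meromorphicOrderAt (T.L χ) s₀ ≠ ⊤ := fun χ hχ => T.mero χ hχ s₀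
  have key := fun (M : Subgroup (F ≃ₐ[K] F)) (χ : M → ℂ) (hχ : χ ∈ Irr M) (hV : VanI n ι M χ)
    (m : ((F ≃ₐ[K] F) → ℂ) → ℕ) (hm : IsDecomp (ind M χ) m) =>
    Pool.Agent.U93.T.order_chain hL hsol r 0 (fun _ => ⊥) monotone_const (fun _ => inferInstance)
      rfl inferInstance (fun i hi => absurd hi (Nat.not_lt_zero i)) hr hι hA
      (Pool.Agent.U93.S.small_two hn ha hrn) hn M hχ hV hm
  exact ⟨fun M hM m hm => (key M (fun _ => 1) Pool.Agent.U93.T.one_irr
    (Pool.Agent.U93.T.vanI_of_free ι (fun _ => 1) hM) m hm).1, key⟩
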