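import Pool.Agent.U93.S.Ord

/-!
# Potentially modular elliptic curves: twists by the characters of large Durfee squares of
# extensions with an alternating group

Let `E` be an elliptic curve over a number field `K` and `F/K` a finite Galois extension with group
`G`. For totally real and for CM fields `K` there is an `F` over which `E` is modular (Taylor; Allen,
Calegari, Caraiani, Gee, Helm, Le Hung, Newton, Scholze, Taylor, Thorne); by solvable descent
(Langlands, Arthur–Clozel) the L-functions `L(E/F^U ⊗ ψ, s)` are then entire for all SOLVABLE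
subgroups `U` of `G` and all linear characters `ψ` of `U`. Brauer's theorem gives the meromorphic
continuation of the L-functions of `E` over all intermediate fields and of all `L(E ⊗ χ, s)`, but `G`
is not solvable in general and poles are not excluded.

Here `G` contains an alternating group `A_n` as a normal subgroup (the other composition factors are
arbitrary): `G` is a subgroup of a finite group `Γ` which is generated by a symmetric group `S_n` and
its centralizer, for example of `Γ = S_n × Q`, and `A_n ⊆ G`. (If `N ≅ A_n`, `n ≥ 7`, is a normal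
subgroup of `G`, then the action on `N` and the projection to `Q = G / N` embed `G` in `S_n × Q`.)

`Pool.Agent.N850.Art.Central j`: the group `Γ` is generated by the image of `j : S_n → Γ` and the
elements which commute with it.

`Pool.Agent.U93.L.Dj h` is the set of the permutations whose support is disjoint from that of `h`,
the symmetric group `Sym(Z)` of the set `Z` of the fixed points of `h`.

`Pool.Agent.U93.L.CosG j k X`: for all `h ∈ S_n` with less than `k` nontrivial cycles and all `c ∈ Γ`
which commute with the image of `S_n`, the sums of `X (j (h u) c)` and of `sign(u) X (j (h u) c)`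
over `u ∈ Sym(Z)` vanish (`CosZ k` is this property for functions on `S_n`). By the
Murnaghan-Nakayama rule the characters `χ_λ` of `S_n` have it if `λ` does not arise from a row or a
column by adding less than `k` rim hooks.

`Pool.Agent.N850.Dur.Thick j ι k X`: `X` is a character of `Γ`, its restriction to `G` along `ι` is
irreducible, and its restriction to `S_n` along `j` contains none of the linear characters
`1 ⊗ ⋯ ⊗ 1 ⊗ sign ⊗ ⋯ ⊗ sign` (`k` factors of each kind) of the Young subgroups with `2 k` factors.
For the character `χ_λ` of `S_n` this says that the side of the Durfee square of `λ` is larger than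
`k` (Berele and Regev).

Proof. The orders at `s₀` form a class function `Θ` on `G` with nonnegative integral multiplicities
at the linear characters of the SOLVABLE subgroups; along the chain it is a sum of functions with the
same property of degree at most `r`. (a) Let `q = 2 ^ a ≥ 4` and `m = ⌊n / q⌋`. Suppose that a linear
character of an abelian subgroup of `A_n` occurs in such a function and is nontrivial at `k`
permutations with disjoint supports. These may be replaced one after the other by involutions which
move `q` points, and then by translations of `k` of `m` disjoint blocks which are lines over the field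
with `q` elements. So a character of weight `i ≥ k` of `F_q ^ m` occurs, hence also all its
conjugates, and the degree is at least `C(m, i) (q - 1) ^ i`. All subgroups which are used are
solvable. (b) Otherwise all mixed differences of order `k` of the function vanish. This is deduced
from (a), one factor after the other, with an induction over 2-groups. (c) So, as a functional on the
polynomials in the cycle numbers, the function is killed by the products of `k` differences, and its
pairing with `X` becomes a sum over permutations `h` with marked cycles of values of this functional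
at `∏ (x_c - x_{c'}) · ∑_u X(h u) y ^ e(u)`, where `e(u)` is the number of even cycles of `u`. The
last polynomial is divisible by `(y ^ 2 - 1) ^ (k - |h|)` because its Taylor coefficients at
`y = ± 1` are sums of `X` over cosets (`Pool.Agent.U93.L`, `Pool.Agent.U93.S`).
-/

set_option autoImplicit false
open NumberField
open Classical

namespace Pool.Agent.Results.MP_bf61d2_nt.LargeDurfeeTwists

open IsDedekindDomain
open Pool.Agent.H541R3.ART (Irr)
open Pool.Agent.R389 (ind IsDecomp)

/-- `M v` is, for every `v`, an integral model of `E` with discriminant minimal at `v`. -/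
def MinimalModels {K : Type} [Field K] [NumberField K] (E : WeierstrassCurve K)
    (M : HeightOneSpectrum (𝓞 K) → WeierstrassCurve (𝓞 K)) : Prop :=
  ∀ v : HeightOneSpectrum (𝓞 K),
    (∃ C : WeierstrassCurve.VariableChange K, C • E = (M v).map (algebraMap (𝓞 K) K)) ∧
    ∀ W : WeierstrassCurve (𝓞 K),
      (∃ C : WeierstrassCurve.VariableChange K, C • E = W.map (algebraMap (𝓞 K) K)) →
        ∀ n : ℕ, (M v).Δ ∈ v.asIdeal ^ n → W.Δ ∈ v.asIdeal ^ n

/-- The Euler product of the problem, computed from the reductions of the models `M v`. -/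
noncomputable def LSeries {K : Type} [Field K] [NumberField K]
    (M : HeightOneSpectrum (𝓞 K) → WeierstrassCurve (𝓞 K)) (s : ℂ) : ℂ :=
  ∏' v : HeightOneSpectrum (𝓞 K),
    (1 - ((((Ideal.absNorm v.asIdeal : ℕ) : ℤ) -
          ((Nat.card {p : (𝓞 K ⧸ v.asIdeal) × (𝓞 K ⧸ v.asIdeal) //
            p.2 ^ 2 + Ideal.Quotient.mk v.asIdeal (M v).a₁ * p.1 * p.2
              + Ideal.Quotient.mk v.asIdeal (M v).a₃ * p.2
            = p.1 ^ 3 + Ideal.Quotient.mk v.asIdeal (M v).a₂ * p.1 ^ 2
              + Ideal.Quotient.mk v.asIdeal (M v).a₄ * p.1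
              + Ideal.Quotient.mk v.asIdeal (M v).a₆} : ℕ) : ℤ) : ℤ) : ℂ)
          * ((Ideal.absNorm v.asIdeal : ℕ) : ℂ) ^ (-s)
      + (if (M v).Δ ∈ v.asIdeal then (0 : ℂ) else 1)
          * ((Ideal.absNorm v.asIdeal : ℕ) : ℂ) ^ (1 - 2 * s))⁻¹

/-- The formal properties of the L-functions `L(E ⊗ χ, s)`, `χ` an irreducible complex character of the
Galois group `G` of `F/K`: they are analytic for `Re s > 3/2`, have a meromorphic continuation to the plane
and do not vanish identically, and for every subgroup `U` of `G` the product of the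
`L(E ⊗ χ, s) ^ ⟨χ|_U, 1⟩` is, for `Re s > 3/2`, the Euler product of the problem for `E` over the fixed
field of `U`. -/
structure TwistFamily (K : Type) [Field K] [NumberField K] (E : WeierstrassCurve K)
    (F : Type) [Field F] [NumberField F] [Algebra K F] where
  /-- the function `L(E ⊗ χ, s)` -/
  L : ((F ≃ₐ[K] F) → ℂ) → ℂ → ℂ
  analytic : ∀ χ ∈ Irr (F ≃ₐ[K] F), ∀ s : ℂ, (3 / 2 : ℝ) < s.re → AnalyticAt ℂ (L χ) s
  mero : ∀ χ ∈ Irr (F ≃ₐ[K] F), ∀ s : ℂ, MeromorphicAt (L χ) s ∧ meromorphicOrderAt (L χ) s ≠ ⊤
  euler : ∀ (U : Subgroup (F ≃ₐ[K] F)) (m : ((F ≃ₐ[K] F) → ℂ) → ℕ),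
    IsDecomp (ind U (fun _ => 1)) m →
    ∀ M : HeightOneSpectrum (𝓞 (IntermediateField.fixedField U)) →
        WeierstrassCurve (𝓞 (IntermediateField.fixedField U)),
      MinimalModels (E.map (algebraMap K (IntermediateField.fixedField U))) M →
        ∀ s : ℂ, (3 / 2 : ℝ) < s.re → ∏ᶠ χ ∈ Irr (F ≃ₐ[K] F), L χ s ^ m χ = LSeries M s

/-- The order at `s` of the L-function of the twist of `E` by the character which contains `χ` with the
multiplicity `m χ`, the product of the `L(E ⊗ χ, s) ^ m χ`. For the multiplicities of the character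
induced from a linear character `ψ` of a subgroup `U` this is the order at `s` of `L(E/F^U ⊗ ψ, s)`. -/
noncomputable def TwistFamily.order {K : Type} [Field K] [NumberField K] {E : WeierstrassCurve K}
    {F : Type} [Field F] [NumberField F] [Algebra K F] (T : TwistFamily K E F)
    (m : ((F ≃ₐ[K] F) → ℂ) → ℕ) (s : ℂ) : WithTop ℤ :=
  meromorphicOrderAt (fun z => ∏ᶠ χ ∈ Irr (F ≃ₐ[K] F), T.L χ z ^ m χ) s

/-- The order at `s₀` of the L-function of `E` over the fixed field of `C (i + 1)` is smaller by at most `r`
than the one for `C i`, where `⊥ = C 0 ≤ C 1 ≤ … ≤ C t` is a chain of solvable normal subgroups of `G`, and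
it is at most `r` for `C t`. For `t = 0`: the order at `s₀` of the L-function of `E` over `F` is at most
`r`. -/
def TwistFamily.GrowsBy {K : Type} [Field K] [NumberField K] {E : WeierstrassCurve K}
    {F : Type} [Field F] [NumberField F] [Algebra K F] (T : TwistFamily K E F)
    (r : ℕ) (s₀ : ℂ) : Prop :=
  ∃ (t : ℕ) (C : ℕ → Subgroup (F ≃ₐ[K] F)), Monotone C ∧ (∀ i, (C i).Normal) ∧ C 0 = ⊥ ∧
    Group.IsSolvable (C t) ∧
    (∀ i < t, ∀ m m' : ((F ≃ₐ[K] F) → ℂ) → ℕ, IsDecomp (ind (C i) (fun _ => 1)) m →
      IsDecomp (ind (C (i + 1)) (fun _ => 1)) m' →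
        T.order m s₀ ≤ T.order m' s₀ + (r : WithTop ℤ)) ∧
    (∀ m : ((F ≃ₐ[K] F) → ℂ) → ℕ, IsDecomp (ind (C t) (fun _ => 1)) m →
      T.order m s₀ ≤ (r : WithTop ℤ))

end Pool.Agent.Results.MP_bf61d2_nt.LargeDurfeeTwists

open IsDedekindDomain
open Pool.Agent.H541R3.ART (Irr)
open Pool.Agent.R389 (ind IsDecomp)
open Pool.Agent.N850.Art (Central)
open Pool.Agent.N850.Dur (Thick)
open Pool.Agent.U93.L (CosG)
open Pool.Agent.Results.MP_bf61d2_nt.LargeDurfeeTwists

/-- Let `F/K` be a finite Galois extension of number fields with group `G`, `E` an elliptic curve over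
`K`, `T` a family of functions with the formal properties of the L-functions `L(E ⊗ χ, s)`, and `s₀` a
complex number. Suppose that `L(E/F^U ⊗ ψ, s)` has no pole at `s₀` for all SOLVABLE subgroups `U` of
`G` and all linear characters `ψ` of `U`, and that the order of the L-function of `E` at `s₀` grows by
at most `r` along a chain of fields as in `TwistFamily.GrowsBy` (for example: the order of
`L(E/F, s)` at `s₀` is at most `r`).

Let `G` be a subgroup of a finite group `Γ` generated by `S_n` and its centralizer, and let `G`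
contain `A_n`. Let `4 k < n`, let `q = 2 ^ a ≥ 4` and `m = ⌊n / q⌋ ≥ 2, k`, and let
`r < C(m, i) (q - 1) ^ i` for `k ≤ i ≤ m`. (If `q ≥ k + 2`, this is the condition
`r < C(m, k) (q - 1) ^ k`. With `q` about `√n` it holds for `r < (1 - o(1)) n ^ k / k!`.)

(1) Let `X` be a class function of `Γ` with irreducible restriction to `G` whose sums over the
cosets `h Sym(Z) c` vanish, also with signs, for all `h` with less than `k` nontrivial cycles. Then
`L(E ⊗ X|_G, s)` has neither a zero nor a pole at `s₀`.

(2) In particular this holds if the partitions of the constituents of `X` on `S_n` have Durfee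
squares of side larger than `k`. -/
theorem Pool.Agent.Results.MP_bf61d2_nt.LargeDurfeeTwists.result
    (K : Type) [Field K] [NumberField K] (E : WeierstrassCurve K) (_hE : E.IsElliptic)
    (F : Type) [Field F] [NumberField F] [Algebra K F] [IsGalois K F] (T : TwistFamily K E F)
    (s₀ : ℂ)
    (hsol : ∀ U : Subgroup (F ≃ₐ[K] F), Group.IsSolvable U → ∀ (ψ : U →* ℂˣ)
      (m : ((F ≃ₐ[K] F) → ℂ) → ℕ), IsDecomp (ind U (fun x => ((ψ x : ℂˣ) : ℂ))) m →
        0 ≤ T.order m s₀)
    (r : ℕ) (hr : T.GrowsBy r s₀)
    (n k : ℕ) (Γ : Type) [Group Γ] [Finite Γ] (j : Equiv.Perm (Fin n) →* Γ)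
    (ι : (F ≃ₐ[K] F) →* Γ) (hj : Central j) (hι : Function.Injective ι)
    (hA : ∀ σ ∈ alternatingGroup (Fin n), j σ ∈ ι.range)
    (a : ℕ) (h4 : 4 * k < n) (ha : 2 ≤ a) (h2 : 2 ≤ n / 2 ^ a) (hk : k ≤ n / 2 ^ a)
    (hrk : ∀ i, k ≤ i → i ≤ n / 2 ^ a → r < (n / 2 ^ a).choose i * (2 ^ a - 1) ^ i) :
    (∀ X : Γ → ℂ, (∀ a b, X (b * a * b⁻¹) = X a) → (fun g => X (ι g)) ∈ Irr (F ≃ₐ[K] F) →
      CosG j k X → meromorphicOrderAt (T.L fun g => X (ι g)) s₀ = 0) ∧
    (∀ X : Γ → ℂ, Thick j ι k X → meromorphicOrderAt (T.L fun g => X (ι g)) s₀ = 0) := by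
  have hG : Finite (F ≃ₐ[K] F) := inferInstance
  have hL : ∀ χ ∈ Irr (F ≃ₐ[K] F),
      MeromorphicAt (T.L χ) s₀ ∧ meromorphicOrderAt (T.L χ) s₀ ≠ ⊤ := fun χ hχ => T.mero χ hχ s₀
  obtain ⟨t, C, hC, hn, h0, hs, hg, hl⟩ := hr
  have key : ∀ X : Γ → ℂ, (∀ a b, X (b * a * b⁻¹) = X a) →
      (fun g => X (ι g)) ∈ Irr (F ≃ₐ[K] F) → CosG j k X →
      meromorphicOrderAt (T.L fun g => X (ι g)) s₀ = 0 := fun X hXc hirr hX =>
    Pool.Agent.U93.S.order_zero_chain hL hsol r t C hC hn h0 hs hg hl hj hι hA
      ⟨h4, a, ha, h2, hk, hrk⟩ hXc hirr hX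
  exact ⟨key, fun X hX => key X (Pool.Agent.U93.S.thick_conj hX) hX.irr
    (Pool.Agent.U93.L.thick_cosG hX)⟩
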